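import Mathlib
import Pool.Agent.J4H92.PL.Two

/-!
# The product of two graphs that are generically rigid in the plane

The Cartesian product of two graphs with at least four vertices each which are generically rigid in
the plane is generically rigid in `ℝ³`, with three kinds of exceptions with at most `20` vertices.
The generic rank in `ℝ³` is always `min (|E|, 3 n - 6)`.

Proof. The two extensions of Henneberg, applied to one factor, preserve the rigidity in `ℝ³` of the
product with a fixed connected graph that is not a tree: the slice over the new vertex is joined to
two other slices, and this fixes it. So the factors can be assumed to have at most six vertices, and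
for the `37` products that remain a placement is given; it is checked in the kernel by the inverse
of its rigidity matrix modulo three.
-/

set_option autoImplicit false

namespace Pool.Agent.J4H92.keep.PlaneRigidFactors

open SimpleGraph Pool.Agent.H789R5 Pool.Agent.H283R2.DR

/-- Let `G` and `H` be finite graphs with at least four vertices each which are generically rigid in
the plane, and let `n` and `|E|` be the numbers of vertices and edges of their Cartesian product.
(1) The generic rank of the product in `ℝ³` is the minimum of `|E|` and `3 n - 6`. (2) The product is
generically rigid in `ℝ³` if and only if `3 n ≤ |E| + 6`. (3) It is generically rigid in `ℝ³` unless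
`G` and `H` are both minimally rigid in the plane (`|E(G)| = 2 |V(G)| - 3`, `|E(H)| = 2 |V(H)| - 3`) and
have together at most nine vertices. -/
theorem result (V W : Type) [Fintype V] [Fintype W] (G : SimpleGraph V) (H : SimpleGraph W)
    (hV : 4 ≤ Fintype.card V) (hW : 4 ≤ Fintype.card W) (hG : GenRigid 2 G)
    (hH : GenRigid 2 H) :
    genRank 3 (G □ H) = min (G □ H).edgeSet.ncard (3 * Fintype.card (V × W) - 6) ∧
    (GenRigid 3 (G □ H) ↔ 3 * Fintype.card (V × W) ≤ (G □ H).edgeSet.ncard + 6) ∧
    (GenRigid 3 (G □ H) ↔ ¬ (Fintype.card V + Fintype.card W ≤ 9 ∧
      G.edgeSet.ncard + 3 = 2 * Fintype.card V ∧ H.edgeSet.ncard + 3 = 2 * Fintype.card W)) :=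
  Pool.Agent.J4H92.PL.main_two G H hG hH hV hW

end Pool.Agent.J4H92.keep.PlaneRigidFactors
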