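import Mathlib
import Pool.Agent.J4H92.NC.Fin2

/-!
# The product of an arbitrary graph with a graph that is generically rigid in the plane

Let `G` be a connected finite graph with `m` vertices and `H` a graph with `h ≥ 3` vertices which is
generically rigid in the plane. When is the Cartesian product `G □ H` generically rigid in `ℝ³`?
If `H` has generic rank at least `2 h` in `ℝ³`, then it is as soon as `G` contains a cycle. If the rank
is smaller, then `G` must have minimum degree at least two and cannot be a cycle with seven or more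
vertices. Conversely, if `G` has minimum degree at least two and is not a cycle, then `G □ H` is
generically rigid in `ℝ³` if `3 m ≤ h + 6`, and, whatever the size of `G`, if all edges of `G` lie on
cycles of length at most `(h + 9) / 6`, or if `m < 2 ^ d` and the paths of `G` whose inner vertices have
degree two have at most `s` of them, where `12 (s + 1) d ≤ h + 3`.

Proof of the main part. The layers of `H` are placed in one plane, at infinitesimal distances from
one another, with heights of several orders. The limit of the rigidity system then splits into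
columns (one for each vertex of `H`), and for a bridgeless `G` with a vertex of degree at least three
one column can kill any infinitesimal motion of the layers; so `3 m - 6` columns kill all of them,
and the rest of the columns force the layers to move together. A bridge is contracted, the
directions of the bars of the bridge being selected one after the other. If a part `B` of `G` has a
rigid product with `H`, then it can be enlarged by any set `S` of at most `h / 3` further vertices, if
the part spanned by `B` and `S` is connected and all vertices of `S` have degree at least two in it.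
-/

set_option autoImplicit false

namespace Pool.Agent.J4H92.keep.PlaneRigidTimesArbitrary

open SimpleGraph Pool.Agent.H789R5 Pool.Agent.H283R2.DR

/-- Let `G` be a connected finite graph, and let `H` be a graph with at least three vertices which is
generically rigid in the plane.
(1) If `G` is not a tree and the generic rank of `H` in `ℝ³` is at least `2 |V(H)|`, then `G □ H` is
generically rigid in `ℝ³`.
(2) Conversely, if `G □ H` is generically rigid in `ℝ³` and `G` has at least two vertices and one of
degree at most one, or `G` is a cycle with at least seven vertices, then the generic rank of `H` in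
`ℝ³` is at least `2 |V(H)|`.
(3) If all degrees of `G` are at least two and one of them is at least three, then `G □ H` is
generically rigid in `ℝ³` in each of the following cases:
(a) `3 |V(G)| ≤ |V(H)| + 6`;
(b) every edge of `G` lies on a cycle of length at most `l`, and `6 l ≤ |V(H)| + 9`;
(c) `|V(G)| < 2 ^ d`, every walk in `G` without immediate reversals that has `s + 1` inner vertices has
an inner vertex of degree at least three, and `12 (s + 1) d ≤ |V(H)| + 3`.
(4) The bound in (3)(a) is best possible for each `G` with `|V(G)| + 1` edges and each minimally rigid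
`H`: if `G □ H` is generically rigid in `ℝ³`, then `3 |V(G)| ≤ |V(H)| + 6`.
(5) If `G` has at least two vertices and two edge-disjoint spanning trees, then `G □ H` is
generically rigid in `ℝ³`. -/
theorem result (V W : Type) [Fintype V] [Fintype W] (G : SimpleGraph V) (H : SimpleGraph W)
    (hG : G.Connected) (hH : GenRigid 2 H) (hW : 3 ≤ Fintype.card W) :
    (¬ G.IsAcyclic → 2 * Fintype.card W ≤ genRank 3 H → GenRigid 3 (G □ H)) ∧
    (GenRigid 3 (G □ H) → (2 ≤ Fintype.card V ∧ ∃ v, (G.neighborSet v).ncard ≤ 1) ∨
      (7 ≤ Fintype.card V ∧ ∀ v, (G.neighborSet v).ncard = 2) →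
      2 * Fintype.card W ≤ genRank 3 H) ∧
    ((∀ v, 2 ≤ (G.neighborSet v).ncard) → (∃ v, 3 ≤ (G.neighborSet v).ncard) →
      (3 * Fintype.card V ≤ Fintype.card W + 6 → GenRigid 3 (G □ H)) ∧
      (∀ l, 6 * l ≤ Fintype.card W + 9 → (∀ a b, G.Adj a b → ∃ (v : V) (c : G.Walk v v),
        c.IsCycle ∧ s(a, b) ∈ c.edges ∧ c.length ≤ l) → GenRigid 3 (G □ H)) ∧
      (∀ s d, Fintype.card V < 2 ^ d → 12 * ((s + 1) * d) ≤ Fintype.card W + 3 →
        (∀ f : ℕ → V, (∀ i ≤ s + 1, G.Adj (f i) (f (i + 1))) → (∀ i ≤ s, f (i + 2) ≠ f i) →
          ∃ i, 1 ≤ i ∧ i ≤ s + 1 ∧ 3 ≤ (G.neighborSet (f i)).ncard) → GenRigid 3 (G □ H))) ∧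
    (G.edgeSet.ncard = Fintype.card V + 1 → H.edgeSet.ncard + 3 = 2 * Fintype.card W →
      GenRigid 3 (G □ H) → 3 * Fintype.card V ≤ Fintype.card W + 6) ∧
    (2 ≤ Fintype.card V → (∃ T₁ T₂ : SimpleGraph V, T₁ ≤ G ∧ T₂ ≤ G ∧ T₁.IsTree ∧ T₂.IsTree ∧
      Disjoint T₁ T₂) → GenRigid 3 (G □ H)) := by
  have hV : 1 ≤ Fintype.card V := by
    obtain ⟨v⟩ := hG.nonempty
    exact Fintype.card_pos_iff.2 ⟨v⟩
  refine ⟨fun h1 h2 => ?_, fun h1 h2 => ?_, fun h1 h2 => ?_, fun h1 h2 h3 => ?_,
    fun h1 h2 => ?_⟩
  · exact Pool.Agent.J4H92.NC.rigid_of_mu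
      (Pool.Agent.J4H92.NC.rank_rigid hG h1 hH (by omega) h2) hV hW
  · rcases h2 with ⟨h2, v, hv⟩ | ⟨h2, h3⟩
    · exact Pool.Agent.J4H92.NC.flex_of_deg h1 h2 hW (v := v) (by omega)
    · exact Pool.Agent.J4H92.NC.unicyclic_flex h1 h2 (by omega)
        (Pool.Agent.J4H92.NC.edges_of_deg h3).le
  · obtain ⟨v, hv⟩ := h2
    have k2 := fun v => Pool.Agent.J4H92.NC.two_of_deg (h1 v)
    have k3 := Pool.Agent.J4H92.NC.three_of_deg hv
    refine ⟨fun h3 => ?_, fun l hl h3 => ?_, fun s d hd hl h3 => ?_⟩
    · exact Pool.Agent.J4H92.NC.rigid_of_mu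
        (Pool.Agent.J4H92.NC.leafless_rigid hH _ V G rfl hG k2 k3 h3) hV hW
    · exact Pool.Agent.J4H92.NC.rigid_of_mu
        (Pool.Agent.J4H92.NC.short_rigid hH hW hG k2 k3 h3 hl) hV hW
    · exact Pool.Agent.J4H92.NC.rigid_of_mu
        (Pool.Agent.J4H92.NC.threads_rigid hH hW hG k2
          (Pool.Agent.J4H92.NC.threads_of h3) hd k3 hl) hV hW
  · exact Pool.Agent.J4H92.NC.sharp h3 hV hW h1 (by omega)
  · obtain ⟨T₁, T₂, h3, h4, h5, h6, h7⟩ := h2
    exact Pool.Agent.J4H92.NC.rigid_of_mu
      (Pool.Agent.J4H92.NC.two_trees h1 h3 h4 h5.connected h6.connected h7 hH hW) hV hW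

end Pool.Agent.J4H92.keep.PlaneRigidTimesArbitrary
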